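import Mathlib

set_option autoImplicit false

namespace Pool.Agent.Results.MP_371ff7_co.Disproof

/-- The interval `[u,v]`. -/
def interval {V : Type} (G : SimpleGraph V) (u v : V) : Set V :=
  {x | G.dist u x + G.dist x v = G.dist u v}

/-- Median graphs. -/
def IsMedian {V : Type} (G : SimpleGraph V) : Prop :=
  G.Connected ∧ ∀ u v w, ∃! m, m ∈ interval G u v ∩ interval G u w ∩ interval G v w

noncomputable def d3 {V : Type} (G : SimpleGraph V) (u v w : V) : ℕ :=
  G.dist u v + G.dist u w + G.dist v w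

/-- A pair at distance equal to the diameter. -/
def Diametral {V : Type} (G : SimpleGraph V) (x y : V) : Prop :=
  ∀ u v, G.dist u v ≤ G.dist x y

lemma dist_of {V : Type} (G : SimpleGraph V) (D : V → V → ℕ) (h0 : ∀ u, D u u = 0)
    (h1 : ∀ u v, D u v = 0 → u = v) (h2 : ∀ u w, G.Adj u w → ∀ v, D u v ≤ D w v + 1)
    (h3 : ∀ u v, D u v ≠ 0 → ∃ w, G.Adj u w ∧ D w v + 1 = D u v) :
    (∀ u v, G.Reachable u v) ∧ ∀ u v, G.dist u v = D u v := by
  have ex : ∀ n u v, D u v = n → ∃ p : G.Walk u v, p.length = n := by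
    intro n
    induction n with
    | zero => intro u v h; obtain rfl := h1 u v h; exact ⟨.nil, rfl⟩
    | succ n ih =>
      intro u v h
      obtain ⟨w, ha, hw⟩ := h3 u v (by omega)
      obtain ⟨p, hp⟩ := ih w v (by omega)
      exact ⟨.cons ha p, by simp [hp]⟩
  have ge : ∀ u v (p : G.Walk u v), D u v ≤ p.length := by
    intro u v p
    induction p with
    | nil => simp [h0]
    | cons ha p ih => exact (h2 _ _ ha _).trans (by simpa using ih)
  refine ⟨fun u v => (ex _ u v rfl).elim fun p _ => ⟨p⟩, fun u v => ?_⟩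
  obtain ⟨p, hp⟩ := ex _ u v rfl
  apply le_antisymm
  · rw [← hp]; exact SimpleGraph.dist_le p
  · obtain ⟨q, hq⟩ := SimpleGraph.Reachable.exists_walk_length_eq_dist ⟨p⟩
    rw [← hq]; exact ge u v q

def X : Fin 8 → ℕ := ![0, 1, 2, 2, 2, 3, 3, 4]
def Y : Fin 8 → ℕ := ![0, 0, 0, 1, 2, 0, 1, 0]
def D (u v : Fin 8) : ℕ := (X u - X v) + (X v - X u) + (Y u - Y v) + (Y v - Y u)

/-- An induced subgraph of the square grid. -/
def G0 : SimpleGraph (Fin 8) where
  Adj u v := D u v = 1
  symm := ⟨by decide +kernel⟩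
  loopless := ⟨by decide +kernel⟩

instance : DecidableRel G0.Adj := fun u v => inferInstanceAs (Decidable (D u v = 1))

lemma hD : (∀ u v, G0.Reachable u v) ∧ ∀ u v, G0.dist u v = D u v :=
  dist_of G0 D (by decide +kernel) (by decide +kernel) (by decide +kernel) (by decide +kernel)

set_option synthInstance.maxSize 4000 in
lemma med : ∀ u v w, ∃ m, ((D u m + D m v = D u v ∧ D u m + D m w = D u w) ∧
    D v m + D m w = D v w) ∧ ∀ m', ((D u m' + D m' v = D u v ∧ D u m' + D m' w = D u w) ∧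
    D v m' + D m' w = D v w) → m' = m := by decide +kernel

theorem result :
    ∃ (V : Type) (_ : Fintype V) (G : SimpleGraph V) (x y : V), IsMedian G ∧ Diametral G x y ∧
      ∃ a b c, ∀ z, d3 G x y z < d3 G a b c := by
  have hc : G0.Connected := ⟨hD.1⟩
  refine ⟨Fin 8, inferInstance, G0, 0, 6, ⟨hc, fun u v w => ?_⟩, ?_, 0, 4, 7, ?_⟩
  · simp only [Set.mem_inter_iff, interval, Set.mem_ofPred_eq, hD.2]
    exact med u v w
  · simp only [Diametral, hD.2]; decide +kernel
  · simp only [d3, hD.2]; decide +kernel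

end Pool.Agent.Results.MP_371ff7_co.Disproof
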